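import Pool.Agent.H499R2.NDCor

set_option autoImplicit false

/-! The integers with divergent trajectory have a natural density. -/

namespace Pool.Agent.Results.MP_ff4775_nt.NaturalDensity

open Filter Topology Pool.Agent.H499R2.ND

/-- the `3x+1` map on the integers -/
def T (x : ℤ) : ℤ := if x % 2 = 0 then x / 2 else (3 * x + 1) / 2

/-- the trajectory of `n` is divergent -/
def Divergent (n : ℤ) : Prop := Tendsto (fun k : ℕ => |T^[k] n|) atTop atTop

/-- the trajectories of `m` and `n` merge -/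
def Merge (m n : ℤ) : Prop := ∃ i j : ℕ, T^[i] m = T^[j] n

/-- among the integers of sign `s` (`s = 1` or `s = -1`) those in `A` have the natural density `δ` -/
def HasDensity (s : ℤ) (A : Set ℤ) (δ : ℝ) : Prop :=
  Tendsto (fun N : ℕ => ({n : ℤ | 0 < s * n ∧ s * n ≤ N ∧ n ∈ A}.ncard : ℝ) / N) atTop (𝓝 δ)

theorem T_eq : T = Td 1 := rfl

theorem div_step (n : ℤ) : Divergent n ↔ Divergent (T n) := by
  unfold Divergent
  have : (fun k : ℕ => |T^[k] (T n)|) = fun k : ℕ => (fun k : ℕ => |T^[k] n|) (k + 1) := by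
    funext k
    simp only [Function.iterate_succ_apply]
  rw [this, tendsto_add_atTop_iff_nat (f := fun k : ℕ => |T^[k] n|) 1]

theorem inv_div : Inv 1 {n : ℤ | Divergent n} := fun n => div_step n

theorem merge_iff (m n : ℤ) : Merge m n ↔ m ∈ Mg (Td 1) n := Iff.rfl

/-- Let `s = 1` or `s = -1`. (1) The integers of sign `s` with a divergent trajectory have a natural
density `δ`, and `δ = 0` exactly when there are none. (2) For every `n₀` of sign `s` with divergent
trajectory the integers whose trajectory merges with that of `n₀` have a positive natural density.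
(3) For every `B` there is `C` such that for every `y ≥ 2` the divergent integers of sign `s` whose
merging class contains no integer of absolute value `≤ y` have a natural density `≤ C / (log y)^B`. -/
theorem result (s : ℤ) (hs : s = 1 ∨ s = -1) :
    (∃ δ : ℝ, 0 ≤ δ ∧ HasDensity s {n | Divergent n} δ ∧
      (δ = 0 ↔ ∀ n : ℤ, 0 < s * n → ¬ Divergent n)) ∧
    (∀ n₀ : ℤ, 0 < s * n₀ → Divergent n₀ → ∃ δ : ℝ, 0 < δ ∧ HasDensity s {n | Merge n n₀} δ) ∧
    (∀ B : ℕ, ∃ C : ℝ, 0 < C ∧ ∀ y : ℝ, 2 ≤ y → ∃ δ : ℝ, δ ≤ C / (Real.log y) ^ B ∧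
      HasDensity s {n | Divergent n ∧ ∀ m : ℤ, Merge m n → y < |(m : ℝ)|} δ) := by
  refine ⟨?_, ?_, ?_⟩
  · obtain ⟨l, hl0, hl1, hl⟩ := dens_side odd_one isCoprime_one_left hs inv_div
    refine ⟨l, hl0, HD_ncard hs hl, ?_, ?_⟩
    · intro h n hn hdiv
      have := one_pos hs inv_div (a := n) hdiv hn hl
      linarith
    · intro h
      exact one_eq_zero hs (S := {n | Divergent n}) (fun a ha h0 => h a h0 ha) hl
  · intro n₀ hn₀ _
    obtain ⟨l, _, _, hl⟩ := dens_side odd_one isCoprime_one_left hs (Mg_inv 1 n₀)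
    exact ⟨l, one_pos hs (Mg_inv 1 n₀) (Mg_self _ n₀) hn₀ hl, HD_ncard hs hl⟩
  · intro B
    obtain ⟨K, hK, h⟩ := tail_le B odd_one (by decide : ¬ (3 : ℤ) ∣ 1) hs
    refine ⟨K, hK, fun y hy => ?_⟩
    have hinv : Inv 1 {n : ℤ | Divergent n ∧ ∀ m : ℤ, Merge m n → y < |(m : ℝ)|} := by
      intro x
      change (Divergent x ∧ _) ↔ (Divergent (T x) ∧ _)
      rw [← div_step x]
      apply and_congr Iff.rfl
      constructor
      · intro h1 m hm
        apply h1 m
        rw [merge_iff] at hm ⊢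
        exact Mg_trans hm ((Mg_step _ x x).1 (Mg_self _ x))
      · intro h1 m hm
        apply h1 m
        rw [merge_iff] at hm ⊢
        exact Mg_trans hm (Mg_symm ((Mg_step _ x x).1 (Mg_self _ x)))
    obtain ⟨l, _, _, hl⟩ := dens_side odd_one isCoprime_one_left hs hinv
    exact ⟨l, h y hy _ hinv (fun x hx => hx.2 x (Mg_self (Td 1) x)) l hl, HD_ncard hs hl⟩

end Pool.Agent.Results.MP_ff4775_nt.NaturalDensity
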