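import Mathlib
import Pool.Agent.H499R2.CO.S3

set_option autoImplicit false

namespace Pool.Agent.Results.MP_ff4775_nt.SolidClasses

open Filter

/-- The `3x+1` map on the integers. -/
def T (n : ℤ) : ℤ := if n % 2 = 0 then n / 2 else (3 * n + 1) / 2

/-- The trajectory of `n` is divergent. -/
def Divergent (n : ℤ) : Prop := Tendsto (fun k : ℕ => |T^[k] n|) atTop atTop

/-- The number of `h` in `[1, H]` for which there is no `t` with `2 ^ t ≤ N` and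
`T^t (x + h) = T^t x`. -/
noncomputable def apart (N H : ℕ) (x : ℤ) : ℕ :=
  {h : ℕ | 1 ≤ h ∧ h ≤ H ∧ ∀ t : ℕ, 2 ^ t ≤ N → T^[t] (x + h) ≠ T^[t] x}.ncard

/-- The number of `h` in `[1, H]` for which `x + h` does not have a divergent trajectory. -/
noncomputable def nondiv (H : ℕ) (x : ℤ) : ℕ := {h : ℕ | 1 ≤ h ∧ h ≤ H ∧ ¬ Divergent (x + h)}.ncard

theorem div_inv (x : ℤ) : Divergent x ↔ Divergent (T x) := by
  unfold Divergent
  have h : (fun k : ℕ => |T^[k] (T x)|) = fun k : ℕ => |T^[k + 1] x| := by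
    funext k; rw [Function.iterate_succ_apply]
  rw [h]
  exact (tendsto_add_atTop_iff_nat (f := fun k : ℕ => |T^[k] x|) 1).symm

/-- Let `s = 1` or `s = -1`.  For every `ε > 0` there is `θ > 0` such that for all large `N`, with
`H = ⌊N ^ θ⌋`, for all but at most `ε N` of the `1 ≤ n ≤ N` all but at most `ε H` of the
`1 ≤ h ≤ H` satisfy `T^t (s n + h) = T^t (s n)` for some `t ≤ log₂ N`.  If there is an integer of
sign `s` with a divergent trajectory, there is `δ > 0` such that for every `ε > 0` there is `θ > 0`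
such that for all large `N` at least `δ N` of the `1 ≤ n ≤ N` have the property that `s n` and all
but at most `ε H` of the integers `s n + 1, ..., s n + H` have divergent trajectories. -/
theorem result (s : ℤ) (hs : s = 1 ∨ s = -1) :
    (∀ ε : ℝ, 0 < ε → ∃ θ : ℝ, 0 < θ ∧ ∃ N0 : ℕ, ∀ N ≥ N0,
      ({n : ℕ | 1 ≤ n ∧ n ≤ N ∧ ε * ⌊(N : ℝ) ^ θ⌋₊ < apart N ⌊(N : ℝ) ^ θ⌋₊ (s * n)}.ncard : ℝ)
        ≤ ε * N) ∧
    ((∃ x : ℤ, 0 < s * x ∧ Divergent x) → ∃ δ : ℝ, 0 < δ ∧ ∀ ε : ℝ, 0 < ε → ∃ θ : ℝ, 0 < θ ∧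
      ∃ N0 : ℕ, ∀ N ≥ N0, δ * N ≤ ({n : ℕ | 1 ≤ n ∧ n ≤ N ∧ Divergent (s * n) ∧
        (nondiv ⌊(N : ℝ) ^ θ⌋₊ (s * n) : ℝ) ≤ ε * ⌊(N : ℝ) ^ θ⌋₊}.ncard : ℝ)) := by
  refine ⟨fun ε hε => Pool.Agent.H499R2.CO.bad_count hs hε, ?_⟩
  rintro ⟨x, hx, hxd⟩
  exact Pool.Agent.H499R2.CO.inv_solid hs (R := {x : ℤ | Divergent x}) (fun x => div_inv x)
    ⟨x, hxd, hx⟩

end Pool.Agent.Results.MP_ff4775_nt.SolidClasses
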