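import Mathlib
import Pool.Agent.H499R2.CO.S3

set_option autoImplicit false

namespace Pool.Agent.Results.MP_ff4775_nt.SufficientSets

open Filter

/-- The `3x+1` map on the integers. -/
def T (n : ℤ) : ℤ := if n % 2 = 0 then n / 2 else (3 * n + 1) / 2

/-- The trajectory of `n` is divergent. -/
def Divergent (n : ℤ) : Prop := Tendsto (fun k : ℕ => |T^[k] n|) atTop atTop

/-- The number of elements of `S` among `x + 1, ..., x + H`. -/
noncomputable def count (S : Set ℤ) (x : ℤ) (H : ℕ) : ℕ := {h : ℕ | 1 ≤ h ∧ h ≤ H ∧ x + h ∈ S}.ncard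

/-- For every `ε > 0` there is `c > 0` such that for every `θ > 0` and for infinitely many `N`, with
`H = ⌊N ^ θ⌋`: for all but at most `ε N` of the `1 ≤ n ≤ N` at least `c H` of the integers
`s n + 1, ..., s n + H` belong to `S`. -/
def Spread (s : ℤ) (S : Set ℤ) : Prop :=
  ∀ ε : ℝ, 0 < ε → ∃ c : ℝ, 0 < c ∧ ∀ θ : ℝ, 0 < θ → ∃ᶠ N : ℕ in atTop,
    ({n : ℕ | 1 ≤ n ∧ n ≤ N ∧ (count S (s * n) ⌊(N : ℝ) ^ θ⌋₊ : ℝ) < c * ⌊(N : ℝ) ^ θ⌋₊}.ncard : ℝ)
      ≤ ε * N

theorem div_inv (x : ℤ) : Divergent x ↔ Divergent (T x) := by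
  unfold Divergent
  have h : (fun k : ℕ => |T^[k] (T x)|) = fun k : ℕ => |T^[k + 1] x| := by
    funext k; rw [Function.iterate_succ_apply]
  rw [h]
  exact (tendsto_add_atTop_iff_nat (f := fun k : ℕ => |T^[k] x|) 1).symm

/-- Let `s = 1` or `s = -1` and let `S` be a set of integers which is not too sparse in most short
intervals of the side `s` (for instance a set with bounded gaps).  If no element of `S` of sign `s` has
a divergent trajectory, then no integer of sign `s` has one. -/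
theorem result (s : ℤ) (hs : s = 1 ∨ s = -1) (S : Set ℤ) (hS : Spread s S)
    (h : ∀ x ∈ S, 0 < s * x → ¬ Divergent x) : ∀ x : ℤ, 0 < s * x → ¬ Divergent x :=
  Pool.Agent.H499R2.CO.spread_inv hs (R := {x : ℤ | ¬ Divergent x}) (fun x => not_congr (div_inv x)) S hS h

end Pool.Agent.Results.MP_ff4775_nt.SufficientSets
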